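import Mathlib

set_option autoImplicit false

open MeasureTheory Set Filter Topology Metric

namespace Pool.Agent.H.MP_1fc8c4_an

abbrev E := EuclideanSpace ℂ (Fin 2)

lemma sq_ident (A : ℝ → ℝ) (a : ℝ → ℝ) (a0 x y : ℝ) (hx : 0 ≤ x) (hxy : x ≤ y)
    (hA : IntervalIntegrable A volume 0 y)
    (ha : ∀ t ∈ Icc 0 y, a t = a0 - ∫ s in (0:ℝ)..t, A s) :
    IntervalIntegrable (fun s => a s * A s) volume x y ∧
      a y ^ 2 - a x ^ 2 = -2 * ∫ s in x..y, a s * A s := by
  have hy : 0 ≤ y := hx.trans hxy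
  set b : ℝ → ℝ := fun t => a0 - ∫ s in (0:ℝ)..t, A s with hb
  have hsub : uIcc x y ⊆ uIcc 0 y := by
    rw [uIcc_of_le hxy, uIcc_of_le hy]; exact Icc_subset_Icc_left hx
  have hac0 := hA.absolutelyContinuousOnInterval_intervalIntegral (c := 0) (by simp)
  have hconst : AbsolutelyContinuousOnInterval (fun _ : ℝ => a0) 0 y :=
    (contDiffOn_const (n := 1)).absolutelyContinuousOnInterval
  have hbac : AbsolutelyContinuousOnInterval b x y := (hconst.sub hac0).mono hsub
  have hAxy : IntervalIntegrable A volume x y := hA.mono_set hsub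
  have heq : ∀ s ∈ uIcc x y, a s = b s := fun s hs => by
    have := hsub hs
    rw [uIcc_of_le hy] at this
    exact ha s this
  have hint : IntervalIntegrable (fun s => b s * A s) volume x y :=
    hAxy.continuousOn_mul hbac.continuousOn
  have hcongr : ∀ s ∈ uIoc x y, b s * A s = a s * A s := fun s hs => by
    rw [heq s (uIoc_subset_uIcc hs)]
  refine ⟨hint.congr (fun s hs => hcongr s hs), ?_⟩
  have h1 := hbac.integral_deriv_mul_eq_sub hbac
  have h2 : ∫ s in x..y, deriv b s * b s + b s * deriv b s = ∫ s in x..y, -2 * (a s * A s) := by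
    apply intervalIntegral.integral_congr_ae
    filter_upwards [hA.ae_hasDerivAt_integral] with s hs hs'
    have h3 := hs (hsub (uIoc_subset_uIcc hs')) 0 (by simp)
    have h4 : HasDerivAt b (-A s) s := by
      simpa [hb] using h3.const_sub a0
    rw [h4.deriv, ← hcongr s hs']; ring
  rw [h2, intervalIntegral.integral_const_mul] at h1
  rw [heq y (by simp), heq x (by simp), h1]; ring

noncomputable def l0 : E →L[ℝ] ℝ := Complex.reCLM ∘L (EuclideanSpace.proj (0 : Fin 2) : E →L[ℂ] ℂ).restrictScalars ℝ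
noncomputable def l1 : E →L[ℝ] ℝ := Complex.imCLM ∘L (EuclideanSpace.proj (0 : Fin 2) : E →L[ℂ] ℂ).restrictScalars ℝ
noncomputable def l2 : E →L[ℝ] ℝ := Complex.reCLM ∘L (EuclideanSpace.proj (1 : Fin 2) : E →L[ℂ] ℂ).restrictScalars ℝ
noncomputable def l3 : E →L[ℝ] ℝ := Complex.imCLM ∘L (EuclideanSpace.proj (1 : Fin 2) : E →L[ℂ] ℂ).restrictScalars ℝ

lemma normsq_eq (v : E) : ‖v‖ ^ 2 = l0 v ^ 2 + l1 v ^ 2 + l2 v ^ 2 + l3 v ^ 2 := by
  rw [EuclideanSpace.norm_sq_eq]
  simp [l0, l1, l2, l3, Fin.sum_univ_two, Complex.sq_norm, Complex.normSq_apply]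
  ring

lemma inner_re_eq (v w : E) :
    (inner ℂ v w).re = l0 v * l0 w + l1 v * l1 w + l2 v * l2 w + l3 v * l3 w := by
  simp [l0, l1, l2, l3, PiLp.inner_apply, Fin.sum_univ_two]
  ring

lemma energy (H v : ℝ → E) (z : E) (x y : ℝ) (hx : 0 ≤ x) (hxy : x ≤ y)
    (hH : IntervalIntegrable H volume 0 y)
    (hv : ∀ t ∈ Icc 0 y, v t = z - ∫ s in (0:ℝ)..t, H s) :
    IntervalIntegrable (fun s => (inner ℂ (v s) (H s)).re) volume x y ∧
      ‖v y‖ ^ 2 - ‖v x‖ ^ 2 = -2 * ∫ s in x..y, (inner ℂ (v s) (H s)).re := by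
  have key : ∀ l : E →L[ℝ] ℝ,
      IntervalIntegrable (fun s => l (v s) * l (H s)) volume x y ∧
      l (v y) ^ 2 - l (v x) ^ 2 = -2 * ∫ s in x..y, l (v s) * l (H s) := by
    intro l
    have hA : IntervalIntegrable (fun s => l (H s)) volume 0 y :=
      ⟨l.integrable_comp hH.1, l.integrable_comp hH.2⟩
    refine sq_ident (fun s => l (H s)) (fun s => l (v s)) (l z) x y hx hxy hA ?_
    intro t ht
    have hHt : IntervalIntegrable H volume 0 t := hH.mono_set (by
      rw [uIcc_of_le ht.1, uIcc_of_le (hx.trans hxy)]; exact Icc_subset_Icc_right ht.2)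
    show l (v t) = l z - ∫ s in (0:ℝ)..t, l (H s)
    rw [hv t ht, map_sub, l.intervalIntegral_comp_comm hHt]
  obtain ⟨i0, e0⟩ := key l0
  obtain ⟨i1, e1⟩ := key l1
  obtain ⟨i2, e2⟩ := key l2
  obtain ⟨i3, e3⟩ := key l3
  simp only [inner_re_eq]
  refine ⟨((i0.add i1).add i2).add i3, ?_⟩
  rw [intervalIntegral.integral_add ((i0.add i1).add i2) i3,
    intervalIntegral.integral_add (i0.add i1) i2, intervalIntegral.integral_add i0 i1,
    normsq_eq, normsq_eq]
  linarith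

lemma cara (p : ℂ → ℂ) (hp : DifferentiableOn ℂ p (ball 0 1)) (h0 : p 0 = 1)
    (hpos : ∀ w ∈ ball (0:ℂ) 1, 0 < (p w).re) (w : ℂ) (hw : ‖w‖ < 1) :
    (1 - ‖w‖) / (1 + ‖w‖) ≤ (p w).re := by
  have hne : ∀ u ∈ ball (0:ℂ) 1, p u + 1 ≠ 0 := fun u hu h => by
    have h1 := hpos u hu
    have h2 := congrArg Complex.re h
    simp at h2; linarith
  have hd : DifferentiableOn ℂ (fun u => (p u - 1) / (p u + 1)) (ball 0 1) :=
    (hp.sub_const 1).div (hp.add_const 1) hne
  have hm : MapsTo (fun u => (p u - 1) / (p u + 1)) (ball (0:ℂ) 1) (closedBall 0 1) := by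
    intro u hu
    rw [mem_closedBall_zero_iff, norm_div, div_le_one (norm_pos_iff.2 (hne u hu))]
    have h1 := hpos u hu
    apply le_of_pow_le_pow_left₀ two_ne_zero (norm_nonneg _)
    rw [Complex.sq_norm, Complex.sq_norm, Complex.normSq_apply, Complex.normSq_apply]
    simp only [Complex.sub_re, Complex.one_re, Complex.sub_im, Complex.one_im, sub_zero,
      Complex.add_re, Complex.add_im, add_zero]
    nlinarith
  have h3 := Complex.norm_le_norm_of_mapsTo_ball hd hm (by simp [h0]) hw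
  rw [norm_div, div_le_iff₀ (norm_pos_iff.2 (hne w (by simpa using hw)))] at h3
  have h4 : ‖p w - 1‖ ^ 2 ≤ (‖w‖ * ‖p w + 1‖) ^ 2 := by gcongr
  rw [mul_pow, Complex.sq_norm (p w - 1), Complex.sq_norm (p w + 1), Complex.normSq_apply,
    Complex.normSq_apply] at h4
  simp only [Complex.sub_re, Complex.one_re, Complex.sub_im, Complex.one_im, sub_zero,
    Complex.add_re, Complex.add_im, add_zero] at h4
  have h5 := hpos w (by simpa using hw)
  set a := (p w).re
  set b := (p w).im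
  set r := ‖w‖
  have hr : 0 ≤ r := norm_nonneg w
  have hr2 : r ^ 2 ≤ 1 := by nlinarith
  have h6 : (1 - a) ^ 2 ≤ (r * (a + 1)) ^ 2 := by nlinarith [mul_nonneg (sub_nonneg.2 hr2) (mul_self_nonneg b)]
  have h7 : 1 - a ≤ r * (a + 1) := le_of_pow_le_pow_left₀ two_ne_zero (by positivity) h6
  rw [div_le_iff₀ (by linarith)]
  nlinarith

lemma lower (h : E → E) (hd : DifferentiableOn ℂ h (ball 0 1)) (h0 : h 0 = 0)
    (h1 : fderiv ℂ h 0 = ContinuousLinearMap.id ℂ E)
    (hpos : ∀ z ∈ ball (0:E) 1, z ≠ 0 → 0 < (inner ℂ z (h z)).re) (z : E) (hz : ‖z‖ < 1) :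
    ‖z‖ ^ 2 * ((1 - ‖z‖) / (1 + ‖z‖)) ≤ (inner ℂ z (h z)).re := by
  rcases eq_or_ne z 0 with rfl | hz0
  · simp
  have hr : 0 < ‖z‖ := norm_pos_iff.2 hz0
  set u : E := ((‖z‖⁻¹ : ℝ) : ℂ) • z with hu
  have hun : ‖u‖ = 1 := by
    rw [hu, norm_smul]; simp [hr.ne']
  have hmem : ∀ w ∈ ball (0:ℂ) 1, w • u ∈ ball (0:E) 1 := fun w hw => by
    rw [mem_ball_zero_iff] at hw ⊢
    rw [norm_smul, hun, mul_one]; exact hw
  set φ : ℂ → ℂ := fun w => innerSL ℂ u (h (w • u)) with hφ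
  have hφd : DifferentiableOn ℂ φ (ball 0 1) :=
    (innerSL ℂ u).differentiable.comp_differentiableOn
      (hd.comp (differentiableOn_id.smul_const u) hmem)
  have hφ0 : φ 0 = 0 := by simp [hφ, h0]
  have hder : deriv φ 0 = 1 := by
    have a1 : HasFDerivAt h (ContinuousLinearMap.id ℂ E) ((0:ℂ) • u) := by
      rw [zero_smul, ← h1]
      exact (hd.differentiableAt (ball_mem_nhds _ one_pos)).hasFDerivAt
    have a2 : HasDerivAt (fun w : ℂ => w • u) u 0 := by
      simpa using (hasDerivAt_id (0:ℂ)).smul_const u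
    have a3 := (innerSL ℂ u).hasFDerivAt.comp_hasDerivAt (0:ℂ) (a1.comp_hasDerivAt (0:ℂ) a2)
    have a4 : HasDerivAt φ (innerSL ℂ u u) 0 := a3
    rw [a4.deriv, innerSL_apply_apply, inner_self_eq_norm_sq_to_K, hun]; simp
  have hp : DifferentiableOn ℂ (dslope φ 0) (ball 0 1) :=
    (Complex.differentiableOn_dslope (ball_mem_nhds _ one_pos)).2 hφd
  have hrel : ∀ w : ℂ, inner ℂ (w • u) (h (w • u)) = ((‖w‖ ^ 2 : ℝ) : ℂ) * dslope φ 0 w := by
    intro w
    rcases eq_or_ne w 0 with rfl | hw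
    · simp
    rw [dslope_of_ne _ hw, slope_def_field, hφ0, inner_smul_left]
    simp only [hφ, innerSL_apply_apply, sub_zero]
    rw [← Complex.normSq_eq_norm_sq, Complex.normSq_eq_conj_mul_self]
    field_simp
  have hpp : ∀ w ∈ ball (0:ℂ) 1, 0 < (dslope φ 0 w).re := by
    intro w hw
    rcases eq_or_ne w 0 with rfl | hw0
    · simp [hder]
    have h2 := hpos (w • u) (hmem w hw) (smul_ne_zero hw0 (by
      intro h; rw [h] at hun; simp at hun))
    rw [hrel, Complex.re_ofReal_mul] at h2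
    exact (pos_iff_pos_of_mul_pos h2).1 (by have := norm_pos_iff.2 hw0; positivity)
  have hc := cara (dslope φ 0) hp (by simp [hder]) hpp (‖z‖ : ℂ) (by simpa using hz)
  have hzu : ((‖z‖ : ℝ) : ℂ) • u = z := by
    rw [hu, smul_smul, ← Complex.ofReal_mul, mul_inv_cancel₀ hr.ne']; simp
  have h3 := hrel (‖z‖ : ℂ)
  rw [hzu] at h3
  rw [h3, Complex.re_ofReal_mul]
  simp only [Complex.norm_real, norm_norm] at hc ⊢
  gcongr

/-- explicit barrier -/
noncomputable def yb (c t : ℝ) : ℝ :=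
  (√(1 + 8 * Real.exp (-(c * t))) - 1) / (√(1 + 8 * Real.exp (-(c * t))) + 1)

lemma yb_deriv (c t : ℝ) :
    HasDerivAt (yb c) (-(c * (yb c t * ((1 - yb c t) / (1 + yb c t))))) t := by
  have hpos : 0 < 1 + 8 * Real.exp (-(c * t)) := by positivity
  have h1 : HasDerivAt (fun t => 1 + 8 * Real.exp (-(c * t))) (8 * (Real.exp (-(c * t)) * (-c))) t := by
    have := (((hasDerivAt_id t).const_mul c).neg.exp.const_mul 8).const_add 1
    simpa using this
  have h2 := h1.sqrt hpos.ne'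
  have hs : 0 < √(1 + 8 * Real.exp (-(c * t))) := Real.sqrt_pos.2 hpos
  have h3 := (h2.sub_const 1).div (h2.add_const 1) (by positivity)
  have hsq := Real.sq_sqrt hpos.le
  refine HasDerivAt.congr_deriv (f := yb c) h3 ?_
  unfold yb
  set s := √(1 + 8 * Real.exp (-(c * t)))
  have he : Real.exp (-(c * t)) = (s ^ 2 - 1) / 8 := by rw [hsq]; ring
  have e1 : (1 - (s - 1) / (s + 1)) / (1 + (s - 1) / (s + 1)) = 1 / s := by
    have e2 : 1 + (s - 1) / (s + 1) = 2 * s / (s + 1) := by field_simp; ring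
    have e3 : 1 - (s - 1) / (s + 1) = 2 / (s + 1) := by field_simp; ring
    rw [e2, e3]; field_simp
  rw [he, e1]
  field_simp
  ring

lemma yb_pos (c t : ℝ) : 0 < yb c t := by
  unfold yb
  apply div_pos _ (by positivity)
  rw [sub_pos, Real.lt_sqrt zero_le_one]
  have := Real.exp_pos (-(c * t)); linarith

lemma yb_lt (c t : ℝ) : yb c t < 1 := by
  unfold yb
  rw [div_lt_one (by positivity)]; linarith

lemma yb_le (c t : ℝ) : yb c t ≤ 2 * Real.exp (-(c * t)) := by
  unfold yb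
  have hpos : 0 < 1 + 8 * Real.exp (-(c * t)) := by positivity
  have hsq := Real.sq_sqrt hpos.le
  have h1 : 1 ≤ √(1 + 8 * Real.exp (-(c * t))) := by
    rw [Real.le_sqrt zero_le_one hpos.le]
    have := Real.exp_pos (-(c * t)); linarith
  set s := √(1 + 8 * Real.exp (-(c * t)))
  have he : Real.exp (-(c * t)) = (s ^ 2 - 1) / 8 := by rw [hsq]; ring
  rw [he, div_le_iff₀ (by positivity)]
  nlinarith [mul_nonneg (sub_nonneg.2 h1) (sub_nonneg.2 h1), mul_nonneg (mul_nonneg (sub_nonneg.2 h1) (sub_nonneg.2 h1)) (sub_nonneg.2 h1)]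

lemma yb_zero (c : ℝ) : yb c 0 = 1 / 2 := by
  unfold yb
  have : √(1 + 8 * Real.exp (-(c * 0))) = 3 := by
    rw [Real.sqrt_eq_iff_mul_self_eq (by positivity) (by norm_num)]
    simp; norm_num
  rw [this]; norm_num

noncomputable def mm (u : ℝ) : ℝ := u ^ 2 * ((1 - u) / (1 + u))

lemma growth_c (H v : ℝ → E) (z : E) (hz : ‖z‖ ≤ 1 / 2)
    (hlow : ∀ t, 0 ≤ t → mm ‖v t‖ ≤ (inner ℂ (v t) (H t)).re)
    (hH : ∀ t, 0 ≤ t → IntervalIntegrable H volume 0 t)
    (hv : ∀ t, 0 ≤ t → v t = z - ∫ s in (0:ℝ)..t, H s) (c : ℝ) (hc : c < 1) (T : ℝ) (hT : 0 ≤ T) :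
    ‖v T‖ ^ 2 ≤ yb c T ^ 2 := by
  have hcont : ContinuousOn v (Icc 0 T) := by
    have h1 := intervalIntegral.continuousOn_primitive_interval' (hH T hT) (a := 0) (by simp)
    rw [uIcc_of_le hT] at h1
    exact (continuousOn_const.sub h1).congr (fun t ht => hv t ht.1)
  have hm : ContinuousOn (fun t => mm ‖v t‖) (Icc 0 T) := by
    unfold mm
    refine (hcont.norm.pow 2).mul ((continuousOn_const.sub hcont.norm).div
      (continuousOn_const.add hcont.norm) (fun t _ => by positivity))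
  have hB : ∀ x, HasDerivAt (fun t => yb c t ^ 2) (-(2 * c * mm (yb c x))) x := fun x => by
    refine ((yb_deriv c x).pow 2).congr_deriv ?_
    unfold mm; simp; ring
  refine image_le_of_liminf_slope_right_lt_deriv_boundary' (f := fun t => ‖v t‖ ^ 2)
    (f' := fun t => -2 * mm ‖v t‖) (a := 0) (b := T) (hcont.norm.pow 2) ?_
    (B := fun t => yb c t ^ 2) (B' := fun x => -(2 * c * mm (yb c x))) ?_
    (fun x _ => (hB x).continuousAt.continuousWithinAt) (fun x _ => (hB x).hasDerivWithinAt) ?_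
    ⟨hT, le_rfl⟩
  · intro x hx r hr
    apply Filter.Eventually.frequently
    set δ := (r + 2 * mm ‖v x‖) / 4 with hδ
    have hδ0 : 0 < δ := by rw [hδ]; linarith
    have h1 := (hm x ⟨hx.1, hx.2.le⟩)
    rw [Metric.continuousWithinAt_iff] at h1
    obtain ⟨η, hη, h2⟩ := h1 δ hδ0
    have h3 : Ioo x (min T (x + η)) ∈ 𝓝[>] x := Ioo_mem_nhdsGT (lt_min hx.2 (by linarith))
    filter_upwards [h3] with y hy
    have hyT : y < T := hy.2.trans_le (min_le_left _ _)
    have hyη : y < x + η := hy.2.trans_le (min_le_right _ _)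
    obtain ⟨i1, e1⟩ := energy H v z x y hx.1 hy.1.le (hH y (hx.1.trans hy.1.le))
      (fun t ht => hv t ht.1)
    have h4 : ∫ _ in x..y, (mm ‖v x‖ - δ) ≤ ∫ s in x..y, (inner ℂ (v s) (H s)).re := by
      refine intervalIntegral.integral_mono_on hy.1.le (by simp) i1 (fun s hs => ?_)
      have h5 := h2 (x := s) ⟨hx.1.trans hs.1, hs.2.trans hyT.le⟩ (by
        rw [Real.dist_eq, abs_lt]; constructor <;> linarith [hs.1, hs.2])
      rw [Real.dist_eq, abs_lt] at h5
      have h6 := hlow s (hx.1.trans hs.1)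
      linarith [h5.1]
    rw [intervalIntegral.integral_const, smul_eq_mul] at h4
    rw [slope_def_field, div_lt_iff₀ (by linarith [hy.1]), e1]
    have h7 : 0 < y - x := by linarith [hy.1]
    have h8 : r = 4 * δ - 2 * mm ‖v x‖ := by rw [hδ]; ring
    rw [h8]
    nlinarith [mul_pos h7 hδ0]
  · simp only [yb_zero]
    rw [hv 0 le_rfl]
    simp only [intervalIntegral.integral_same, sub_zero]
    gcongr
  · intro x _ hx
    have h1 : ‖v x‖ = yb c x := by
      have := (sq_eq_sq₀ (norm_nonneg _) (yb_pos c x).le).1 hx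
      exact this
    simp only [h1]
    have h2 : 0 < mm (yb c x) := by
      unfold mm
      have := yb_pos c x
      have := yb_lt c x
      apply mul_pos (by positivity) (div_pos (by linarith) (by linarith))
    nlinarith

lemma growth (H v : ℝ → E) (z : E) (hz : ‖z‖ ≤ 1 / 2)
    (hlow : ∀ t, 0 ≤ t → mm ‖v t‖ ≤ (inner ℂ (v t) (H t)).re)
    (hH : ∀ t, 0 ≤ t → IntervalIntegrable H volume 0 t)
    (hv : ∀ t, 0 ≤ t → v t = z - ∫ s in (0:ℝ)..t, H s) (T : ℝ) (hT : 0 ≤ T) :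
    ‖v T‖ ≤ 2 * Real.exp (-T) := by
  have h1 : ∀ c : ℝ, c < 1 → ‖v T‖ ≤ 2 * Real.exp (-(c * T)) := fun c hc =>
    (le_of_pow_le_pow_left₀ two_ne_zero (yb_pos c T).le
      (growth_c H v z hz hlow hH hv c hc T hT)).trans (yb_le c T)
  have h2 : Tendsto (fun c : ℝ => 2 * Real.exp (-(c * T))) (𝓝[<] 1) (𝓝 (2 * Real.exp (-(1 * T)))) := by
    apply Tendsto.mono_left _ nhdsWithin_le_nhds
    exact Continuous.tendsto (by fun_prop) 1
  rw [one_mul] at h2
  exact ge_of_tendsto h2 (eventually_mem_nhdsWithin.mono fun c hc => h1 c hc)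

end Pool.Agent.H.MP_1fc8c4_an
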