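import Pool.Agent.H.MP_1fc8c4_an.A

set_option autoImplicit false

open MeasureTheory Set Filter Topology Metric

namespace Pool.Agent.H.MP_1fc8c4_an

noncomputable def K (w : ℂ) : ℂ := w / (1 - w) ^ 2
noncomputable def hh (w : ℂ) : ℂ := w * ((1 - w) / (1 + w))
noncomputable def XX (t : ℝ) (w : ℂ) : ℂ :=
  1 - (Real.exp (-t) : ℂ) + (Real.exp (-t) : ℂ) * ((1 + w) / (1 - w)) ^ 2
noncomputable def ss (t : ℝ) (w : ℂ) : ℂ := Complex.exp (Complex.log (XX t w) / 2)
noncomputable def V (t : ℝ) (w : ℂ) : ℂ := (ss t w - 1) / (ss t w + 1)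

lemma one_sub_ne {w : ℂ} (hw : ‖w‖ < 1) : 1 - w ≠ 0 := fun h => by
  have : w = 1 := by linear_combination -h
  rw [this] at hw; simp at hw

lemma one_add_ne {w : ℂ} (hw : ‖w‖ < 1) : 1 + w ≠ 0 := fun h => by
  have : w = -1 := by linear_combination h
  rw [this] at hw; simp at hw

lemma re_cayley {w : ℂ} (hw : ‖w‖ < 1) : 0 < ((1 + w) / (1 - w)).re := by
  have h1 : Complex.normSq w < 1 := by
    rw [← Complex.sq_norm]; nlinarith [norm_nonneg w]
  have h2 : 0 < Complex.normSq (1 - w) := Complex.normSq_pos.2 (one_sub_ne hw)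
  rw [Complex.div_re, ← add_div]
  apply div_pos _ h2
  rw [Complex.normSq_apply] at h1
  simp; nlinarith

lemma re_cayley' {w : ℂ} (hw : ‖w‖ < 1) : 0 < ((1 - w) / (1 + w)).re := by
  have := re_cayley (w := -w) (by simpa using hw)
  simpa [sub_eq_add_neg] using this

lemma XX_slit {t : ℝ} (ht : 0 ≤ t) {w : ℂ} (hw : ‖w‖ < 1) : XX t w ∈ Complex.slitPlane := by
  have h1 := re_cayley hw
  unfold XX
  set q := (1 + w) / (1 - w)
  have h2 : 0 < Real.exp (-t) := Real.exp_pos _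
  have h3 : Real.exp (-t) ≤ 1 := Real.exp_le_one_iff.2 (by linarith)
  set τ := Real.exp (-t)
  rw [Complex.mem_slitPlane_iff]
  by_cases hq : q.im = 0
  · left
    simp [pow_two, hq]
    nlinarith [mul_pos h2 (mul_pos h1 h1)]
  · right
    simp [pow_two]
    refine ⟨h2.ne', ?_⟩
    have : q.re * q.im + q.im * q.re = 2 * q.re * q.im := by ring
    rw [this]
    exact mul_ne_zero (by positivity) hq

lemma ss_sq {t : ℝ} (ht : 0 ≤ t) {w : ℂ} (hw : ‖w‖ < 1) : ss t w ^ 2 = XX t w := by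
  unfold ss
  rw [← Complex.exp_nat_mul]
  have : ((2:ℕ):ℂ) * (Complex.log (XX t w) / 2) = Complex.log (XX t w) := by push_cast; ring
  rw [this, Complex.exp_log (Complex.slitPlane_ne_zero (XX_slit ht hw))]

lemma ss_re {t : ℝ} (ht : 0 ≤ t) {w : ℂ} (hw : ‖w‖ < 1) : 0 < (ss t w).re := by
  unfold ss
  rw [Complex.exp_re]
  apply mul_pos (Real.exp_pos _)
  have h1 : (Complex.log (XX t w) / 2).im = Complex.arg (XX t w) / 2 := by
    simp [Complex.log_im]
  rw [h1]
  have h2 := Complex.neg_pi_lt_arg (XX t w)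
  have h3 : Complex.arg (XX t w) < Real.pi :=
    lt_of_le_of_ne (Complex.arg_le_pi _) (Complex.slitPlane_arg_ne_pi (XX_slit ht hw))
  apply Real.cos_pos_of_mem_Ioo
  constructor <;> linarith

lemma ss_add_ne {t : ℝ} (ht : 0 ≤ t) {w : ℂ} (hw : ‖w‖ < 1) : ss t w + 1 ≠ 0 := fun h => by
  have h1 := ss_re ht hw
  have h2 := congrArg Complex.re h
  simp at h2; linarith

lemma ss_ne {t : ℝ} (ht : 0 ≤ t) {w : ℂ} (hw : ‖w‖ < 1) : ss t w ≠ 0 := fun h => by
  have h1 := ss_re ht hw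
  rw [h] at h1; simp at h1

lemma V_diff {t : ℝ} (ht : 0 ≤ t) : DifferentiableOn ℂ (V t) (ball 0 1) := by
  have hX : DifferentiableOn ℂ (XX t) (ball 0 1) := by
    unfold XX
    refine (differentiableOn_const _).add ((differentiableOn_const _).mul (DifferentiableOn.pow ?_ 2))
    exact ((differentiableOn_const _).add differentiableOn_id).div
      ((differentiableOn_const _).sub differentiableOn_id)
      (fun w hw => one_sub_ne (by simpa using hw))
  have hs : DifferentiableOn ℂ (ss t) (ball 0 1) :=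
    ((hX.clog (fun w hw => XX_slit ht (by simpa using hw))).div_const 2).cexp
  exact (hs.sub_const 1).div (hs.add_const 1) (fun w hw => ss_add_ne ht (by simpa using hw))

lemma V_zero (t : ℝ) : V t 0 = 0 := by
  simp [V, ss, XX]

lemma V_norm_le {t : ℝ} (ht : 0 ≤ t) {w : ℂ} (hw : ‖w‖ < 1) : ‖V t w‖ ≤ ‖w‖ := by
  refine Complex.norm_le_norm_of_mapsTo_ball (V_diff ht) ?_ (V_zero t) hw
  intro u hu
  have hu' : ‖u‖ < 1 := by simpa using hu
  rw [mem_closedBall_zero_iff, V, norm_div, div_le_one (norm_pos_iff.2 (ss_add_ne ht hu'))]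
  have h1 := ss_re ht hu'
  apply le_of_pow_le_pow_left₀ two_ne_zero (norm_nonneg _)
  rw [Complex.sq_norm, Complex.sq_norm, Complex.normSq_apply, Complex.normSq_apply]
  simp only [Complex.sub_re, Complex.one_re, Complex.sub_im, Complex.one_im, sub_zero,
    Complex.add_re, Complex.add_im, add_zero]
  nlinarith

lemma K_V {t : ℝ} (ht : 0 ≤ t) {w : ℂ} (hw : ‖w‖ < 1) :
    K (V t w) = (Real.exp (-t) : ℂ) * K w := by
  have h1 := ss_sq ht hw
  have h2 := ss_add_ne ht hw
  have h3 := one_sub_ne hw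
  have e3 : 1 - (ss t w - 1) / (ss t w + 1) = 2 / (ss t w + 1) := by field_simp; ring
  have e4 : K (V t w) = (ss t w ^ 2 - 1) / 4 := by
    unfold K V; rw [e3]; field_simp; ring
  rw [e4, h1]; unfold XX K
  field_simp; ring

lemma K_inj {a b : ℂ} (ha : ‖a‖ < 1) (hb : ‖b‖ < 1) (h : K a = K b) : a = b := by
  have h1 := one_sub_ne ha
  have h2 := one_sub_ne hb
  unfold K at h
  rw [div_eq_div_iff (pow_ne_zero 2 h1) (pow_ne_zero 2 h2)] at h
  have h3 : (a - b) * (1 - a * b) = 0 := by linear_combination h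
  have h4 : ‖a * b‖ < 1 := by
    rw [norm_mul]; nlinarith [norm_nonneg a, norm_nonneg b]
  exact sub_eq_zero.1 ((mul_eq_zero.1 h3).resolve_right (one_sub_ne h4))

lemma V_init {w : ℂ} (hw : ‖w‖ < 1) : V 0 w = w := by
  apply K_inj ((V_norm_le le_rfl hw).trans_lt hw) hw
  rw [K_V le_rfl hw]; simp

lemma V_deriv {t : ℝ} (ht : 0 ≤ t) {w : ℂ} (hw : ‖w‖ < 1) :
    HasDerivAt (fun t => V t w) (-hh (V t w)) t := by
  have he : HasDerivAt (fun t : ℝ => (Real.exp (-t) : ℂ)) (-(Real.exp (-t) : ℂ)) t := by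
    have := ((hasDerivAt_id t).neg.exp).ofReal_comp
    simpa using this
  have hX : HasDerivAt (fun t => XX t w) (1 - XX t w) t := by
    have := (he.const_sub 1).add (he.mul_const (((1 + w) / (1 - w)) ^ 2))
    refine HasDerivAt.congr_deriv (f := fun t => XX t w) this ?_
    unfold XX; ring
  have hs : HasDerivAt (fun t => ss t w) (ss t w * ((1 - XX t w) / XX t w / 2)) t :=
    ((hX.clog_real (XX_slit ht hw)).div_const 2).cexp
  have h2 := ss_add_ne ht hw
  have h3 := ss_ne ht hw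
  have hV := (hs.sub_const 1).div (hs.add_const 1) h2
  refine HasDerivAt.congr_deriv (f := fun t => V t w) hV ?_
  rw [← ss_sq ht hw]
  unfold hh V
  set s := ss t w
  have e1 : (1 - (s - 1) / (s + 1)) / (1 + (s - 1) / (s + 1)) = 1 / s := by
    have e2 : 1 + (s - 1) / (s + 1) = 2 * s / (s + 1) := by field_simp; ring
    have e3 : 1 - (s - 1) / (s + 1) = 2 / (s + 1) := by field_simp; ring
    rw [e2, e3]; field_simp
  rw [e1]
  field_simp
  ring

lemma K_bound {w : ℂ} {r : ℝ} (hr : r < 1) (hw : ‖w‖ ≤ r) : ‖K w‖ ≤ 1 / (1 - r) ^ 2 := by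
  unfold K
  rw [norm_div, norm_pow]
  have h1 : 1 - r ≤ ‖1 - w‖ := by
    have := norm_sub_norm_le (1:ℂ) w
    simp at this; linarith
  have h2 : 0 < 1 - r := by linarith
  gcongr
  linarith

lemma V_lim {w : ℂ} (hw : ‖w‖ < 1) :
    Tendsto (fun t : ℝ => (Real.exp t : ℂ) * V t w) atTop (𝓝 (K w)) := by
  have h1 : ∀ t : ℝ, 0 ≤ t → V t w = (Real.exp (-t) : ℂ) * K w * (1 - V t w) ^ 2 := by
    intro t ht
    rw [← K_V ht hw]; unfold K
    have := one_sub_ne ((V_norm_le ht hw).trans_lt hw)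
    field_simp
  have h2 : Tendsto (fun t : ℝ => V t w) atTop (𝓝 0) := by
    rw [tendsto_zero_iff_norm_tendsto_zero]
    have h3 : Tendsto (fun t : ℝ => Real.exp (-t) * ‖K w‖ * 4) atTop (𝓝 (0 * ‖K w‖ * 4)) :=
      (Real.tendsto_exp_neg_atTop_nhds_zero.mul_const _).mul_const _
    rw [zero_mul, zero_mul] at h3
    refine squeeze_zero' (Eventually.of_forall fun _ => norm_nonneg _) ?_ h3
    filter_upwards [eventually_ge_atTop 0] with t ht
    rw [h1 t ht, norm_mul, norm_mul, norm_pow, Complex.norm_real, Real.norm_eq_abs,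
      abs_of_pos (Real.exp_pos _)]
    have h4 : ‖1 - V t w‖ ≤ 2 := by
      have := norm_sub_le (1:ℂ) (V t w)
      have := V_norm_le ht hw
      simp at *; linarith
    have h5 : ‖1 - V t w‖ ^ 2 ≤ 4 := by nlinarith [norm_nonneg (1 - V t w)]
    gcongr
  have h3 : Tendsto (fun t : ℝ => K w * (1 - V t w) ^ 2) atTop (𝓝 (K w * (1 - 0) ^ 2)) :=
    ((h2.const_sub 1).pow 2).const_mul _
  simp only [sub_zero, one_pow, mul_one] at h3
  refine h3.congr' ?_
  filter_upwards [eventually_ge_atTop 0] with t ht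
  have h6 : (Real.exp t : ℂ) * (Real.exp (-t) : ℂ) = 1 := by
    rw [← Complex.ofReal_mul, ← Real.exp_add]; simp
  conv_rhs => rw [h1 t ht]
  linear_combination (-(K w * (1 - V t w) ^ 2)) * h6

end Pool.Agent.H.MP_1fc8c4_an
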