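import Pool.Agent.H.MP_1fc8c4_an.B

set_option autoImplicit false

open MeasureTheory Set Filter Topology Metric

namespace Pool.Agent.H.MP_1fc8c4_an

noncomputable def e0 : E := EuclideanSpace.single 0 1
noncomputable def e1 : E := EuclideanSpace.single 1 1
noncomputable def mk (a b : ℂ) : E := a • e0 + b • e1

@[simp] lemma mk0 (a b : ℂ) : mk a b 0 = a := by simp [mk, e0, e1]
@[simp] lemma mk1 (a b : ℂ) : mk a b 1 = b := by simp [mk, e0, e1]

lemma ext2 {u v : E} (h0 : u 0 = v 0) (h1 : u 1 = v 1) : u = v := by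
  ext i; fin_cases i <;> simpa

lemma mk_self (z : E) : mk (z 0) (z 1) = z := ext2 (by simp) (by simp)

lemma nsq (z : E) : ‖z‖ ^ 2 = ‖z 0‖ ^ 2 + ‖z 1‖ ^ 2 := by
  rw [EuclideanSpace.norm_sq_eq]; simp [Fin.sum_univ_two]

lemma comp_lt {z : E} (hz : z ∈ ball (0:E) 1) (i : Fin 2) : ‖z i‖ < 1 :=
  (PiLp.norm_apply_le z i).trans_lt (by simpa using hz)

lemma mk_norm_le {a b : ℂ} {z : E} (ha : ‖a‖ ≤ ‖z 0‖) (hb : ‖b‖ ≤ ‖z 1‖) : ‖mk a b‖ ≤ ‖z‖ := by
  apply le_of_pow_le_pow_left₀ two_ne_zero (norm_nonneg _)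
  rw [nsq, nsq z, mk0, mk1]
  gcongr

lemma mk_norm_add (a b : ℂ) : ‖mk a b‖ ≤ ‖a‖ + ‖b‖ := by
  apply le_of_pow_le_pow_left₀ two_ne_zero (by positivity)
  rw [nsq, mk0, mk1]
  nlinarith [mul_nonneg (norm_nonneg a) (norm_nonneg b)]

lemma prod_diff {φ ψ : ℂ → ℂ} (hφ : DifferentiableOn ℂ φ (ball 0 1))
    (hψ : DifferentiableOn ℂ ψ (ball 0 1)) :
    DifferentiableOn ℂ (fun z : E => mk (φ (z 0)) (ψ (z 1))) (ball 0 1) := by
  have h : ∀ i : Fin 2, DifferentiableOn ℂ (fun z : E => z i) (ball 0 1) := fun i =>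
    (EuclideanSpace.proj i : E →L[ℂ] ℂ).differentiable.differentiableOn
  have hm : ∀ i : Fin 2, MapsTo (fun z : E => z i) (ball 0 1) (ball 0 1) := fun i z hz => by
    simpa using comp_lt hz i
  exact ((hφ.comp (h 0) (hm 0)).smul_const e0).add ((hψ.comp (h 1) (hm 1)).smul_const e1)

lemma prod_fderiv {φ ψ : ℂ → ℂ} {c : ℂ} (hφ : HasDerivAt φ c 0) (hψ : HasDerivAt ψ c 0) :
    fderiv ℂ (fun z : E => mk (φ (z 0)) (ψ (z 1))) 0 = c • ContinuousLinearMap.id ℂ E := by
  have h : ∀ i : Fin 2, HasFDerivAt (fun z : E => z i) (EuclideanSpace.proj i : E →L[ℂ] ℂ) 0 :=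
    fun i => (EuclideanSpace.proj i : E →L[ℂ] ℂ).hasFDerivAt
  have h0 := (HasDerivAt.comp_hasFDerivAt_of_eq (0:E) hφ (h 0) (by simp)).smul_const e0
  have h1 := (HasDerivAt.comp_hasFDerivAt_of_eq (0:E) hψ (h 1) (by simp)).smul_const e1
  have h2 : HasFDerivAt (fun z : E => mk (φ (z 0)) (ψ (z 1))) _ 0 := h0.add h1
  rw [h2.fderiv]
  ext z i
  fin_cases i <;> simp [e0, e1]

lemma hh_diff : DifferentiableOn ℂ hh (ball 0 1) :=
  differentiableOn_id.mul (((differentiableOn_const _).sub differentiableOn_id).div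
    ((differentiableOn_const _).add differentiableOn_id)
    (fun w hw => one_add_ne (by simpa using hw)))

lemma hh_deriv : HasDerivAt hh 1 0 := by
  have h1 := (hasDerivAt_id (0:ℂ)).mul ((((hasDerivAt_id (0:ℂ)).const_sub 1).div
    ((hasDerivAt_id (0:ℂ)).const_add 1) (by simp)))
  exact HasDerivAt.congr_deriv (f := hh) h1 (by simp)

lemma K_diff : DifferentiableOn ℂ K (ball 0 1) :=
  differentiableOn_id.div (((differentiableOn_const _).sub differentiableOn_id).pow 2)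
    (fun w hw => pow_ne_zero 2 (one_sub_ne (by simpa using hw)))

lemma K_deriv : HasDerivAt K 1 0 := by
  have h1 := (hasDerivAt_id (0:ℂ)).div (((hasDerivAt_id (0:ℂ)).const_sub 1).pow 2) (by simp)
  exact HasDerivAt.congr_deriv (f := K) h1 (by simp)

def InS0 (g : E → E) : Prop :=
  ∃ (h : E → ℝ → E) (v : E → ℝ → E),
      (∀ t : ℝ, DifferentiableOn ℂ (fun z => h z t) (Metric.ball (0 : E) 1) ∧
        h 0 t = 0 ∧
        fderiv ℂ (fun z => h z t) 0 = ContinuousLinearMap.id ℂ E ∧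
        ∀ z ∈ Metric.ball (0 : E) 1, z ≠ 0 → 0 < (inner ℂ z (h z t)).re) ∧
      (∀ z ∈ Metric.ball (0 : E) 1,
        MeasureTheory.StronglyMeasurable (fun t : ℝ => h z t)) ∧
      (∀ z ∈ Metric.ball (0 : E) 1,
        (∀ t : ℝ, 0 ≤ t → v z t ∈ Metric.ball (0 : E) 1 ∧
          IntervalIntegrable (fun s => h (v z s) s) MeasureTheory.volume 0 t ∧
          v z t = z - ∫ s in (0:ℝ)..t, h (v z s) s) ∧
        Filter.Tendsto (fun t : ℝ => ((Real.exp t : ℝ) : ℂ) • v z t) Filter.atTop (nhds (g z)))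

lemma S0_bound {g : E → E} (hg : InS0 g) (z : E) (hz : ‖z‖ ≤ 1 / 2) : ‖g z‖ ≤ 2 := by
  obtain ⟨h, v, h1, -, h3⟩ := hg
  obtain ⟨h4, h5⟩ := h3 z (by simp; linarith)
  have h6 := growth (fun s => h (v z s) s) (v z) z hz (fun t ht => by
    obtain ⟨a1, a2, a3, a4⟩ := h1 t
    exact lower (fun z => h z t) a1 a2 a3 a4 (v z t) (by simpa using (h4 t ht).1))
    (fun t ht => (h4 t ht).2.1) (fun t ht => (h4 t ht).2.2)
  refine le_of_tendsto h5.norm ?_
  filter_upwards [eventually_ge_atTop 0] with t ht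
  rw [norm_smul, Complex.norm_real, Real.norm_eq_abs, abs_of_pos (Real.exp_pos _)]
  calc Real.exp t * ‖v z t‖ ≤ Real.exp t * (2 * Real.exp (-t)) := by gcongr; exact h6 t ht
    _ = 2 := by rw [mul_left_comm, ← Real.exp_add]; simp

lemma ftc (H : E → E) (hH : ContinuousOn H (ball 0 1)) (v : ℝ → E) (t : ℝ) (ht : 0 ≤ t)
    (hb : ∀ s, 0 ≤ s → v s ∈ ball (0:E) 1) (hd : ∀ s, 0 ≤ s → HasDerivAt v (-H (v s)) s) :
    IntervalIntegrable (fun s => H (v s)) volume 0 t ∧ v t = v 0 - ∫ s in (0:ℝ)..t, H (v s) := by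
  have hc : ContinuousOn (fun s => H (v s)) (uIcc 0 t) := by
    rw [uIcc_of_le ht]
    exact hH.comp (fun s hs => (hd s hs.1).continuousAt.continuousWithinAt)
      (fun s hs => hb s hs.1)
  have hi : IntervalIntegrable (fun s => H (v s)) volume 0 t := hc.intervalIntegrable
  refine ⟨hi, ?_⟩
  have := intervalIntegral.integral_eq_sub_of_hasDerivAt (f := v) (f' := fun s => -H (v s))
    (a := 0) (b := t) (fun s hs => hd s (by rw [uIcc_of_le ht] at hs; exact hs.1)) hi.neg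
  rw [intervalIntegral.integral_neg] at this
  rw [sub_eq_add_neg, this]; abel

lemma exp_deriv (t : ℝ) :
    HasDerivAt (fun t : ℝ => (Real.exp (-t) : ℂ)) (-(Real.exp (-t) : ℂ)) t := by
  have := ((hasDerivAt_id t).neg.exp).ofReal_comp
  simpa using this

lemma exp_mul (t : ℝ) : (Real.exp t : ℂ) * (Real.exp (-t) : ℂ) = 1 := by
  rw [← Complex.ofReal_mul, ← Real.exp_add]; simp

lemma exp_norm_le {t : ℝ} (ht : 0 ≤ t) (w : ℂ) : ‖(Real.exp (-t) : ℂ) * w‖ ≤ ‖w‖ := by
  rw [norm_mul, Complex.norm_real, Real.norm_eq_abs, abs_of_pos (Real.exp_pos _)]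
  exact mul_le_of_le_one_left (norm_nonneg _) (Real.exp_le_one_iff.2 (by linarith))

lemma id_S0 : InS0 (fun z => z) := by
  refine ⟨fun z _ => z, fun z t => (Real.exp (-t) : ℂ) • z, fun t => ⟨differentiableOn_id, rfl,
    fderiv_id, fun z _ hz => ?_⟩, fun z _ => stronglyMeasurable_const, fun z hz => ⟨fun t ht => ?_, ?_⟩⟩
  · have h1 := inner_self_eq_norm_sq (𝕜 := ℂ) z
    have h2 := norm_pos_iff.2 hz
    have h3 : (inner ℂ z z).re = ‖z‖ ^ 2 := h1
    rw [h3]; positivity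
  · have hb : ∀ s : ℝ, 0 ≤ s → (Real.exp (-s) : ℂ) • z ∈ ball (0:E) 1 := fun s hs => by
      rw [mem_ball_zero_iff] at hz ⊢
      rw [norm_smul, Complex.norm_real, Real.norm_eq_abs, abs_of_pos (Real.exp_pos _)]
      exact (mul_le_of_le_one_left (norm_nonneg _)
        (Real.exp_le_one_iff.2 (by linarith))).trans_lt hz
    have := ftc (fun z => z) continuousOn_id (fun s => (Real.exp (-s) : ℂ) • z) t ht hb
      (fun s _ => ((exp_deriv s).smul_const z).congr_deriv (by rw [neg_smul]))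
    refine ⟨hb t ht, this.1, ?_⟩
    have h2 := this.2
    simpa using h2
  · simp only [smul_smul, exp_mul, one_smul]; exact tendsto_const_nhds

noncomputable def ff (z : E) : E := mk (K (z 0)) (z 1)

lemma ff_S0 : InS0 ff := by
  have hd : DifferentiableOn ℂ (fun z : E => mk (hh (z 0)) (z 1)) (ball 0 1) :=
    prod_diff (ψ := fun w => w) hh_diff differentiableOn_id
  refine ⟨fun z _ => mk (hh (z 0)) (z 1), fun z t => mk (V t (z 0)) ((Real.exp (-t) : ℂ) * z 1),
    fun t => ⟨hd, ?_, ?_, fun z hz hz0 => ?_⟩, fun z _ => stronglyMeasurable_const,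
    fun z hz => ⟨fun t ht => ?_, ?_⟩⟩
  · exact ext2 (by simp [hh]) (by simp)
  · rw [prod_fderiv (ψ := fun w => w) hh_deriv (hasDerivAt_id 0), one_smul]
  · have h1 := re_cayley' (comp_lt hz 0)
    have h2 : inner ℂ z (mk (hh (z 0)) (z 1)) =
        ((‖z 0‖ ^ 2 : ℝ) : ℂ) * ((1 - z 0) / (1 + z 0)) + ((‖z 1‖ ^ 2 : ℝ) : ℂ) := by
      rw [← Complex.normSq_eq_norm_sq, ← Complex.normSq_eq_norm_sq,
        Complex.normSq_eq_conj_mul_self, Complex.normSq_eq_conj_mul_self]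
      simp [PiLp.inner_apply, Fin.sum_univ_two, hh]; ring
    rw [h2, Complex.add_re, Complex.re_ofReal_mul, Complex.ofReal_re]
    have h3 : 0 < ‖z‖ ^ 2 := by have := norm_pos_iff.2 hz0; positivity
    rw [nsq] at h3
    rcases eq_or_ne (z 0) 0 with h4 | h4
    · rw [h4] at h3 ⊢; simpa using h3
    · have := norm_pos_iff.2 h4; positivity
  · have hb : ∀ s : ℝ, 0 ≤ s → mk (V s (z 0)) ((Real.exp (-s) : ℂ) * z 1) ∈ ball (0:E) 1 :=
      fun s hs => by
        rw [mem_ball_zero_iff]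
        exact (mk_norm_le (V_norm_le hs (comp_lt hz 0)) (exp_norm_le hs _)).trans_lt
          (by simpa using hz)
    have := ftc _ hd.continuousOn (fun s => mk (V s (z 0)) ((Real.exp (-s) : ℂ) * z 1)) t ht hb
      (fun s hs => by
        have a1 := ((V_deriv hs (comp_lt hz 0)).smul_const e0).add
          (((exp_deriv s).mul_const (z 1)).smul_const e1)
        refine HasDerivAt.congr_deriv
          (f := fun s => mk (V s (z 0)) ((Real.exp (-s) : ℂ) * z 1)) a1 ?_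
        rw [mk0, mk1, mk, neg_add, neg_mul, neg_smul, neg_smul])
    refine ⟨hb t ht, this.1, ?_⟩
    have h2 := this.2
    rw [V_init (comp_lt hz 0)] at h2
    simp only [neg_zero, Real.exp_zero, Complex.ofReal_one, one_mul, mk_self] at h2
    exact h2
  · have h1 := ((V_lim (comp_lt hz 0)).smul_const e0).add
      (tendsto_const_nhds (x := z 1 • e1))
    refine Tendsto.congr (fun t => ?_) h1
    simp only [mk, smul_add, smul_smul]
    rw [← mul_assoc, exp_mul, one_mul]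

noncomputable def FF (c : ℝ → ℝ) (z : E) (t : ℝ) : E :=
  mk ((Real.exp t : ℂ) * K (z 0)) ((Real.exp t : ℂ) * (z 1 / (1 - (c t : ℂ) * z 1)))

def InNLC (F : E → ℝ → E) : Prop :=
      (∀ t : ℝ, 0 ≤ t →
        DifferentiableOn ℂ (fun z => F z t) (Metric.ball (0 : E) 1) ∧
        Set.InjOn (fun z => F z t) (Metric.ball (0 : E) 1) ∧
        F 0 t = 0 ∧
        fderiv ℂ (fun z => F z t) 0 =
          ((Real.exp t : ℝ) : ℂ) • ContinuousLinearMap.id ℂ E) ∧
      (∀ s t : ℝ, 0 ≤ s → s ≤ t →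
        (fun z => F z s) '' Metric.ball (0 : E) 1 ⊆
          (fun z => F z t) '' Metric.ball (0 : E) 1) ∧
      (∀ r : ℝ, r < 1 → ∃ M : ℝ, ∀ t : ℝ, 0 ≤ t → ∀ z : E,
        ‖z‖ ≤ r → ‖F z t‖ ≤ M * Real.exp t)

lemma den_ne {c : ℝ} (hc : |c| ≤ 1) {w : ℂ} (hw : ‖w‖ < 1) : 1 - (c:ℂ) * w ≠ 0 := by
  apply one_sub_ne
  rw [norm_mul, Complex.norm_real, Real.norm_eq_abs]
  exact (mul_le_of_le_one_left (norm_nonneg _) hc).trans_lt hw

lemma FF_NLC (c : ℝ → ℝ) (hc : ∀ t, 0 ≤ t → |c t| ≤ 1)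
    (hc2 : ∀ s t, 0 ≤ s → s ≤ t → |c t * Real.exp s - c s * Real.exp t| ≤ Real.exp t - Real.exp s) :
    InNLC (FF c) := by
  have hexp : ∀ t : ℝ, (Real.exp t : ℂ) ≠ 0 := fun t => by
    exact_mod_cast (Real.exp_pos t).ne'
  refine ⟨fun t ht => ⟨?_, ?_, ?_, ?_⟩, fun s t hs hst => ?_, fun r hr => ?_⟩
  · refine prod_diff (φ := fun w => (Real.exp t : ℂ) * K w)
      (ψ := fun w => (Real.exp t : ℂ) * (w / (1 - (c t : ℂ) * w))) (K_diff.const_mul _) ?_
    refine DifferentiableOn.const_mul ?_ _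
    exact differentiableOn_id.div ((differentiableOn_const _).sub (differentiableOn_id.const_mul _))
      (fun w hw => den_ne (hc t ht) (by simpa using hw))
  · intro z hz z' hz' h
    have h0 := congrArg (fun u : E => u 0) h
    have h1 := congrArg (fun u : E => u 1) h
    simp only [FF, mk0, mk1] at h0 h1
    refine ext2 (K_inj (comp_lt hz 0) (comp_lt hz' 0) (mul_left_cancel₀ (hexp t) h0)) ?_
    have h2 := mul_left_cancel₀ (hexp t) h1
    rw [div_eq_div_iff (den_ne (hc t ht) (comp_lt hz 1)) (den_ne (hc t ht) (comp_lt hz' 1))] at h2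
    linear_combination h2
  · exact ext2 (by simp [FF, K]) (by simp [FF])
  · refine prod_fderiv (φ := fun w => (Real.exp t : ℂ) * K w)
      (ψ := fun w => (Real.exp t : ℂ) * (w / (1 - (c t : ℂ) * w)))
      ((K_deriv.const_mul _).congr_deriv (mul_one _)) ?_
    have h1 := ((hasDerivAt_id (0:ℂ)).div (((hasDerivAt_id (0:ℂ)).const_mul (c t : ℂ)).const_sub 1)
      (by simp)).const_mul (Real.exp t : ℂ)
    exact HasDerivAt.congr_deriv
      (f := fun w => (Real.exp t : ℂ) * (w / (1 - (c t : ℂ) * w))) h1 (by simp)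
  · rintro _ ⟨z, hz, rfl⟩
    have ht : 0 ≤ t := hs.trans hst
    set d : ℝ := c t * Real.exp s - c s * Real.exp t with hd
    have hz1 := comp_lt hz 1
    have hden : Real.exp s ≤ ‖(Real.exp t : ℂ) + (d : ℂ) * z 1‖ := by
      have a1 := norm_sub_norm_le (Real.exp t : ℂ) (-((d : ℂ) * z 1))
      rw [sub_neg_eq_add, norm_neg, norm_mul, Complex.norm_real, Complex.norm_real,
        Real.norm_eq_abs, Real.norm_eq_abs, abs_of_pos (Real.exp_pos _)] at a1
      have a2 := hc2 s t hs hst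
      have a3 : |d| * ‖z 1‖ ≤ |d| := mul_le_of_le_one_right (abs_nonneg _) hz1.le
      linarith
    have hden0 : (Real.exp t : ℂ) + (d : ℂ) * z 1 ≠ 0 :=
      norm_pos_iff.1 ((Real.exp_pos s).trans_le hden)
    have hle : ‖(Real.exp s : ℂ) * z 1 / ((Real.exp t : ℂ) + (d : ℂ) * z 1)‖ ≤ ‖z 1‖ := by
      rw [norm_div, div_le_iff₀ (norm_pos_iff.2 hden0), norm_mul, Complex.norm_real,
        Real.norm_eq_abs, abs_of_pos (Real.exp_pos _), mul_comm]
      gcongr
    refine ⟨mk (V (t - s) (z 0)) ((Real.exp s : ℂ) * z 1 / ((Real.exp t : ℂ) + (d : ℂ) * z 1)),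
      ?_, ?_⟩
    · rw [mem_ball_zero_iff]
      exact (mk_norm_le (V_norm_le (by linarith) (comp_lt hz 0)) hle).trans_lt (by simpa using hz)
    · refine ext2 ?_ ?_
      · simp only [FF, mk0]
        rw [K_V (by linarith) (comp_lt hz 0), ← mul_assoc, ← Complex.ofReal_mul, ← Real.exp_add]
        congr 3; ring
      · simp only [FF, mk1]
        have b1 := den_ne (hc s hs) hz1
        have b2 := den_ne (hc t ht) (hle.trans_lt hz1)
        have b3 : 1 - (c t : ℂ) * ((Real.exp s : ℂ) * z 1 / ((Real.exp t : ℂ) + (d : ℂ) * z 1)) =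
            (Real.exp t : ℂ) * (1 - (c s : ℂ) * z 1) / ((Real.exp t : ℂ) + (d : ℂ) * z 1) := by
          rw [eq_div_iff hden0, sub_mul, mul_assoc, div_mul_cancel₀ _ hden0, hd]
          push_cast; ring
        rw [b3]
        have := hexp t
        generalize (Real.exp t : ℂ) + (d : ℂ) * z 1 = D at *
        generalize 1 - (c s : ℂ) * z 1 = D' at *
        field_simp
  · refine ⟨1 / (1 - r) ^ 2 + 1 / (1 - r), fun t ht z hz => ?_⟩
    refine (mk_norm_add _ _).trans ?_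
    rw [norm_mul, norm_mul, Complex.norm_real, Real.norm_eq_abs, abs_of_pos (Real.exp_pos _),
      ← mul_add, mul_comm]
    have h0 : ‖z 0‖ ≤ r := (PiLp.norm_apply_le z 0).trans hz
    have h1 : ‖z 1‖ ≤ r := (PiLp.norm_apply_le z 1).trans hz
    have h2 : ‖z 1 / (1 - (c t : ℂ) * z 1)‖ ≤ 1 / (1 - r) := by
      rw [norm_div]
      have a1 := norm_sub_norm_le (1:ℂ) ((c t : ℂ) * z 1)
      rw [norm_mul, Complex.norm_real, Real.norm_eq_abs, norm_one] at a1
      have a2 : |c t| * ‖z 1‖ ≤ ‖z 1‖ := mul_le_of_le_one_left (norm_nonneg _) (hc t ht)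
      have a3 : 0 < 1 - r := by linarith
      gcongr <;> linarith
    gcongr
    exact K_bound hr h0

noncomputable def cc (t : ℝ) : ℝ := (1 - Real.exp (-t)) / 2

lemma cc1 (t : ℝ) (ht : 0 ≤ t) : |cc t| ≤ 1 := by
  have h1 := Real.exp_pos (-t)
  have h2 : Real.exp (-t) ≤ 1 := Real.exp_le_one_iff.2 (by linarith)
  unfold cc; rw [abs_le]; constructor <;> linarith

lemma cc2 (s t : ℝ) (hs : 0 ≤ s) (hst : s ≤ t) :
    |cc t * Real.exp s - cc s * Real.exp t| ≤ Real.exp t - Real.exp s := by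
  unfold cc
  rw [Real.exp_neg, Real.exp_neg]
  have ha : 1 ≤ Real.exp s := Real.one_le_exp hs
  have hab : Real.exp s ≤ Real.exp t := Real.exp_le_exp.2 hst
  set a := Real.exp s
  set b := Real.exp t
  have hb : 1 ≤ b := ha.trans hab
  have e : (1 - b⁻¹) / 2 * a - (1 - a⁻¹) / 2 * b = (b - a) * ((a⁻¹ + b⁻¹ - 1) / 2) := by
    field_simp; ring
  have h1 : a⁻¹ ≤ 1 := inv_le_one_of_one_le₀ ha
  have h2 : b⁻¹ ≤ 1 := inv_le_one_of_one_le₀ hb
  have h3 : 0 < a⁻¹ := by positivity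
  have h4 : 0 < b⁻¹ := by positivity
  rw [e, abs_mul, abs_of_nonneg (sub_nonneg.2 hab)]
  apply mul_le_of_le_one_right (sub_nonneg.2 hab)
  rw [abs_le]; constructor <;> linarith

noncomputable def zs : E := mk (1 / 2) 0
noncomputable def zt : E := mk 0 (1 / 2)

lemma zs_norm : ‖zs‖ ≤ 1 / 2 := (mk_norm_add _ _).trans (by simp)
lemma zt_norm : ‖zt‖ ≤ 1 / 2 := (mk_norm_add _ _).trans (by simp)

lemma ff_zs : ff zs 0 = 2 := by
  simp [ff, zs, K]; norm_num

lemma differ : FF (fun _ => 0) zt 1 ≠ FF cc zt 1 := by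
  intro h
  have h1 := congrArg (fun u : E => u 1) h
  simp only [FF, mk1, zt] at h1
  have h2 := mul_left_cancel₀ (by exact_mod_cast (Real.exp_pos 1).ne') h1
  rw [div_eq_div_iff (by simp) (den_ne (cc1 1 zero_le_one) (by norm_num))] at h2
  have h3 : (cc 1 : ℂ) = 0 := by
    simp only [Complex.ofReal_zero] at h2
    linear_combination (-4) * h2
  have h4 : cc 1 = 0 := by exact_mod_cast h3
  have h5 : Real.exp (-1) < 1 := Real.exp_lt_one_iff.2 (by norm_num)
  unfold cc at h4; linarith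

end Pool.Agent.H.MP_1fc8c4_an
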